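import Pool.Agent.H572Z.Sp.Test

set_option autoImplicit false

/-!
# Positive operators on a finite laminar family, general exponents
-/

namespace Pool.Agent.H547Z.Pos

open MeasureTheory Set Pool.Agent.H572Z.Sp
open scoped ENNReal Classical

variable {X : Type*} [MeasurableSpace X]

lemma geo_inj {ι : Type*} (y : ℝ≥0∞) (T : Finset ι) (φ : ι → ℕ) (hφ : Set.InjOn φ T) :
    ∑ i ∈ T, y ^ φ i ≤ (1 - y)⁻¹ := by
  rw [← Finset.sum_image (f := fun j => y ^ j) hφ, ← ENNReal.tsum_geometric]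
  exact ENNReal.sum_le_tsum _

/-- the constant of the geometric sum with ratio `2 ^ (-r)` -/
noncomputable def gc (r : ℝ) : ℝ≥0∞ := (1 - (2⁻¹ : ℝ≥0∞) ^ r)⁻¹

lemma gc_ne_top {r : ℝ} (hr : 0 < r) : gc r ≠ ⊤ := by
  have : (2⁻¹ : ℝ≥0∞) ^ r < 1 := ENNReal.rpow_lt_one (by norm_num) hr
  exact ENNReal.inv_ne_top.2 (tsub_pos_of_lt this).ne'

lemma sum_zpow_rpow_le {r : ℝ} (hr : 0 < r) (M : Finset ℤ) (z : ℝ≥0∞)
    (h : ∀ m ∈ M, (2 : ℝ≥0∞) ^ m ≤ z) :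
    ∑ m ∈ M, ((2 : ℝ≥0∞) ^ m) ^ r ≤ gc r * z ^ r := by
  rcases M.eq_empty_or_nonempty with rfl | hne
  · simp
  set n := M.max' hne with hn
  have h1 : ∀ m ∈ M, ((2 : ℝ≥0∞) ^ m) ^ r =
      ((2⁻¹ : ℝ≥0∞) ^ r) ^ (n - m).toNat * ((2 : ℝ≥0∞) ^ n) ^ r := by
    intro m hm
    have hmn : m ≤ n := M.le_max' m hm
    rw [← ENNReal.rpow_natCast, ← ENNReal.rpow_mul, mul_comm r, ENNReal.rpow_mul,
      ← ENNReal.mul_rpow_of_nonneg _ _ hr.le, ENNReal.rpow_natCast]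
    congr 1
    have e : n = ((n - m).toNat : ℤ) + m := by omega
    conv_rhs => rw [e, ENNReal.zpow_add (by norm_num) (by norm_num), zpow_natCast]
    rw [← e, ← mul_assoc, ← mul_pow, ENNReal.inv_mul_cancel (by norm_num) (by norm_num), one_pow,
      one_mul]
  rw [Finset.sum_congr rfl h1, ← Finset.sum_mul]
  refine mul_le_mul' (geo_inj _ _ _ fun a ha b hb e => ?_)
    (ENNReal.rpow_le_rpow (h n (M.max'_mem hne)) hr.le)
  have h2 : a ≤ n := M.le_max' a ha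
  have h3 : b ≤ n := M.le_max' b hb
  omega

/-- the constant of the principal cube estimate -/
noncomputable def cc (q : ℝ) : ℝ≥0∞ := 2 ^ q * gc (q - 1) * 2 ^ q

lemma cc_ne_top {q : ℝ} (hq : 1 < q) : cc q ≠ ⊤ := by
  have h2 : (2 : ℝ≥0∞) ^ q ≠ ⊤ := ENNReal.rpow_ne_top_of_nonneg (by linarith) (by norm_num)
  exact ENNReal.mul_ne_top (ENNReal.mul_ne_top h2 (gc_ne_top (by linarith))) h2

lemma setInt_ne_top_p {q : ℝ} (hq : 1 ≤ q) (w : Measure X) {f : X → ℝ≥0∞}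
    (hf2 : ∫⁻ x, f x ^ q ∂w ≠ ⊤) {Q : Set X} (hQ : w Q ≠ ⊤) : ∫⁻ x in Q, f x ∂w ≠ ⊤ := by
  have : ∫⁻ x in Q, f x ∂w ≤ ∫⁻ x in Q, (f x ^ q + 1) ∂w := by
    refine lintegral_mono fun x => ?_
    rcases le_total (f x) 1 with h | h
    · exact le_add_left h
    · exact le_add_right (ENNReal.le_rpow_self_of_one_le h hq)
  refine ne_top_of_le_ne_top ?_ this
  rw [lintegral_add_right _ measurable_const, setLIntegral_const, one_mul]
  exact ENNReal.add_ne_top.2 ⟨ne_top_of_le_ne_top hf2 (setLIntegral_le_lintegral _ _), hQ⟩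

lemma young {p q : ℝ} (hpq : p.HolderConjugate q) {l : ℝ≥0∞} (h0 : l ≠ 0) (ht : l ≠ ⊤)
    (u v : ℝ≥0∞) : u * v ≤ l ^ p * u ^ p + l⁻¹ ^ q * v ^ q := by
  have h1 := ENNReal.young_inequality (l * u) (l⁻¹ * v) hpq
  have e : l * u * (l⁻¹ * v) = u * v := by
    rw [mul_mul_mul_comm, ENNReal.mul_inv_cancel h0 ht, one_mul]
  rw [e, ENNReal.mul_rpow_of_nonneg _ _ hpq.pos.le,
    ENNReal.mul_rpow_of_nonneg _ _ hpq.symm.pos.le] at h1
  have hd : ∀ (a : ℝ≥0∞) (r : ℝ), 1 < r → a / ENNReal.ofReal r ≤ a := by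
    intro a r hr
    refine ENNReal.div_le_of_le_mul ?_
    calc a = a * 1 := (mul_one a).symm
      _ ≤ _ := by gcongr; exact ENNReal.one_le_ofReal.2 hr.le
  exact h1.trans (add_le_add (hd _ _ hpq.lt) (hd _ _ hpq.symm.lt))

lemma sp_rpow_ne_top {p : ℝ} (hp : 0 < p) (ν : Measure X) {S : Finset (Set X)}
    (hS : ∀ P ∈ S, MeasurableSet P) {a : Set X → ℝ≥0∞} (ha : ∀ P ∈ S, a P ≠ ⊤)
    (hν : ∀ P ∈ S, ν P ≠ ⊤) : ∫⁻ x, sp S a x ^ p ∂ν ≠ ⊤ := by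
  have h1 : ∀ x, sp S a x ^ p ≤ sp S (fun _ => (∑ Q ∈ S, a Q) ^ p) x := by
    intro x
    rcases (S.filter (x ∈ ·)).eq_empty_or_nonempty with h | ⟨Q, hQ⟩
    · rw [sp, h]; simp [hp]
    · refine le_trans ?_ (Finset.single_le_sum (f := fun _ => (∑ Q ∈ S, a Q) ^ p)
        (fun _ _ => zero_le) hQ)
      exact ENNReal.rpow_le_rpow (Finset.sum_le_sum_of_subset (Finset.filter_subset _ _)) hp.le
  refine ne_top_of_le_ne_top ?_ (lintegral_mono h1)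
  rw [lintegral_sp ν hS]
  exact ENNReal.sum_ne_top.2 fun Q hQ => ENNReal.mul_ne_top
    (ENNReal.rpow_ne_top_of_nonneg hp.le (ENNReal.sum_ne_top.2 ha)) (hν Q hQ)

/-- Principal cubes. -/
lemma corona_p {q : ℝ} (hq : 1 < q) (w : Measure X) {S : Finset (Set X)} (h : Lam (S : Set (Set X)))
    (hS : ∀ P ∈ S, MeasurableSet P) (hw : ∀ P ∈ S, w P ≠ ⊤) {f : X → ℝ≥0∞} (hf : Measurable f)
    (hf2 : ∫⁻ x, f x ^ q ∂w ≠ ⊤) (hpos : ∀ P ∈ S, ∫⁻ x in P, f x ∂w ≠ 0) :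
    ∃ (π : Set X → Set X) (β : Set X → ℝ≥0∞),
      (∀ Q ∈ S, π Q ∈ S ∧ Q ⊆ π Q ∧ ∫⁻ x in Q, f x ∂w ≤ β (π Q) * w Q) ∧
      (∀ Q ∈ S, ∀ G ∈ S, Q ⊆ G → G ⊆ π Q → π G = π Q) ∧
      ∑ F ∈ S.image π, β F ^ q * w F ≤ cc q * ∫⁻ x, f x ^ q ∂w := by
  have hw0 : ∀ P ∈ S, w P ≠ 0 := fun P hP h0 => hpos P hP (setLIntegral_measure_zero _ _ h0)
  have hne : ∀ P ∈ S, P.Nonempty := fun P hP => nonempty_of_measure_ne_zero (hw0 P hP)
  set α : Set X → ℝ≥0∞ := fun Q => (∫⁻ x in Q, f x ∂w) / w Q with hα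
  have hαw : ∀ Q ∈ S, ∫⁻ x in Q, f x ∂w = α Q * w Q := fun Q hQ =>
    (ENNReal.div_mul_cancel (hw0 Q hQ) (hw Q hQ)).symm
  set M : Set X → ℝ≥0∞ := fun Q => (S.filter (Q ⊆ ·)).sup α with hM
  have hαM : ∀ Q, ∀ P ∈ S, Q ⊆ P → α P ≤ M Q := fun Q P hP hQP =>
    Finset.le_sup (f := α) (Finset.mem_filter.2 ⟨hP, hQP⟩)
  have hMex : ∀ Q ∈ S, ∃ P ∈ S, Q ⊆ P ∧ M Q = α P := by
    intro Q hQ
    obtain ⟨P, hP, e⟩ := Finset.exists_mem_eq_sup (S.filter (Q ⊆ ·))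
      ⟨Q, Finset.mem_filter.2 ⟨hQ, subset_rfl⟩⟩ α
    exact ⟨P, (Finset.mem_filter.1 hP).1, (Finset.mem_filter.1 hP).2, e⟩
  have hk : ∀ Q, ∃ k : ℤ, Q ∈ S → (2 : ℝ≥0∞) ^ k < M Q ∧ M Q ≤ 2 ^ (k + 1) := by
    intro Q
    by_cases hQ : Q ∈ S
    · obtain ⟨P, hP, -, e⟩ := hMex Q hQ
      have h0 : M Q ≠ 0 := by
        rw [e]; exact (ENNReal.div_pos (hpos P hP) (hw P hP)).ne'
      have ht : M Q ≠ ⊤ := by
        rw [e]; exact ENNReal.div_ne_top (setInt_ne_top_p hq.le w hf2 (hw P hP)) (hw0 P hP)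
      obtain ⟨k, hk⟩ := ENNReal.exists_mem_Ioc_zpow h0 ht (y := 2) (by norm_num) (by norm_num)
      exact ⟨k, fun _ => hk⟩
    · exact ⟨0, fun h => absurd h hQ⟩
  choose k hk using hk
  have hπ : ∀ Q, ∃ F, Q ∈ S → F ∈ mx (S.filter (fun P => (2 : ℝ≥0∞) ^ k Q < α P)) ∧ Q ⊆ F := by
    intro Q
    by_cases hQ : Q ∈ S
    · obtain ⟨P, hP, hQP, e⟩ := hMex Q hQ
      obtain ⟨F, hF, hPF⟩ := exists_mx (S := S.filter (fun P => (2 : ℝ≥0∞) ^ k Q < α P))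
        (Finset.mem_filter.2 ⟨hP, e ▸ (hk Q hQ).1⟩)
      exact ⟨F, fun _ => ⟨hF, hQP.trans hPF⟩⟩
    · exact ⟨Q, fun h => absurd h hQ⟩
  choose π hπ using hπ
  have hπS : ∀ Q ∈ S, π Q ∈ S ∧ (2 : ℝ≥0∞) ^ k Q < α (π Q) := fun Q hQ =>
    Finset.mem_filter.1 (mx_subset _ (hπ Q hQ).1)
  have lamf : ∀ j : ℤ, Lam ((S.filter (fun P => (2 : ℝ≥0∞) ^ j < α P) : Finset (Set X)) :
      Set (Set X)) := fun j => h.mono (Finset.coe_subset.2 (Finset.filter_subset _ _))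
  have hint : ∀ Q ∈ S, ∀ G ∈ S, Q ⊆ G → G ⊆ π Q → k G = k Q ∧ π G = π Q := by
    intro Q hQ G hG hQG hGπ
    have h1 : M G ≤ M Q :=
      Finset.sup_mono (fun P hP => Finset.mem_filter.2
        ⟨(Finset.mem_filter.1 hP).1, hQG.trans (Finset.mem_filter.1 hP).2⟩)
    have h2 : (2 : ℝ≥0∞) ^ k Q < M G := (hπS Q hQ).2.trans_le (hαM G _ (hπS Q hQ).1 hGπ)
    have h3 : k G = k Q := by
      apply le_antisymm
      · by_contra hc
        have : (2 : ℝ≥0∞) ^ (k Q + 1) ≤ 2 ^ k G :=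
          ENNReal.zpow_le_of_le (by norm_num) (by omega)
        exact absurd ((hk G hG).1.trans_le (h1.trans ((hk Q hQ).2.trans this))) (lt_irrefl _)
      · by_contra hc
        have : (2 : ℝ≥0∞) ^ (k G + 1) ≤ 2 ^ k Q :=
          ENNReal.zpow_le_of_le (by norm_num) (by omega)
        exact absurd (h2.trans_le ((hk G hG).2.trans this)) (lt_irrefl _)
    refine ⟨h3, ?_⟩
    obtain ⟨x, hx⟩ := hne G hG
    have := (hπ G hG).1
    rw [h3] at this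
    exact mx_eq (lamf _) this (hπ Q hQ).1 ((hπ G hG).2 hx) (hGπ hx)
  have hkπ : ∀ Q ∈ S, k (π Q) = k Q ∧ π (π Q) = π Q := fun Q hQ =>
    hint Q hQ _ (hπS Q hQ).1 (hπ Q hQ).2 subset_rfl
  refine ⟨π, fun F => 2 ^ (k F + 1), fun Q hQ => ⟨(hπS Q hQ).1, (hπ Q hQ).2, ?_⟩,
    fun Q hQ G hG h1 h2 => (hint Q hQ G hG h1 h2).2, ?_⟩
  · beta_reduce
    rw [hαw Q hQ, (hkπ Q hQ).1]
    gcongr
    exact (hαM Q Q hQ subset_rfl).trans (hk Q hQ).2
  · have hF : ∀ F ∈ S.image π, F ∈ mx (S.filter (fun P => (2 : ℝ≥0∞) ^ k F < α P)) := by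
      intro F hF
      obtain ⟨Q, hQ, rfl⟩ := Finset.mem_image.1 hF
      rw [(hkπ Q hQ).1]
      exact (hπ Q hQ).1
    have hFS : ∀ F ∈ S.image π, F ∈ S ∧ (2 : ℝ≥0∞) ^ k F < α F := fun F hF' =>
      Finset.mem_filter.1 (mx_subset _ (hF F hF'))
    set φ : Set X → X → ℝ≥0∞ := fun F x => if 2 ^ k F < 2 * f x then 2 * f x else 0 with hφ
    have hφm : ∀ F, Measurable (φ F) := fun F =>
      Measurable.ite (measurableSet_lt measurable_const (hf.const_mul 2)) (hf.const_mul 2)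
        measurable_const
    have h1 : ∀ F ∈ S.image π, (2 : ℝ≥0∞) ^ k F * w F ≤ ∫⁻ x in F, φ F x ∂w := by
      intro F hF'
      have hFS' := hFS F hF'
      refine absorb (ENNReal.mul_ne_top (two_zpow_ne_top _) (hw F hFS'.1)) ?_
      calc 2 * ((2 : ℝ≥0∞) ^ k F * w F) ≤ 2 * (α F * w F) := by gcongr; exact hFS'.2.le
        _ = ∫⁻ x in F, 2 * f x ∂w := by rw [lintegral_const_mul _ hf, hαw F hFS'.1]
        _ ≤ ∫⁻ x in F, (φ F x + 2 ^ k F) ∂w := lintegral_mono fun x => by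
            simp only [hφ]
            split_ifs with hc
            · exact le_self_add
            · rw [zero_add]; exact not_lt.1 hc
        _ = _ := by rw [lintegral_add_right _ measurable_const, setLIntegral_const]
    have hq0 : 0 ≤ q - 1 := by linarith
    have hsplit : ∀ z : ℝ≥0∞, z ^ q = z ^ (q - 1) * z := by
      intro z
      conv_lhs => rw [show q = (q - 1) + 1 by ring, ENNReal.rpow_add_of_nonneg _ _ hq0 zero_le_one,
        ENNReal.rpow_one]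
    calc ∑ F ∈ S.image π, ((2 : ℝ≥0∞) ^ (k F + 1)) ^ q * w F
        ≤ ∑ F ∈ S.image π, ∫⁻ x, F.indicator
            (fun x => 2 ^ q * ((2 : ℝ≥0∞) ^ k F) ^ (q - 1) * φ F x) x ∂w := by
          refine Finset.sum_le_sum fun F hF' => ?_
          rw [lintegral_indicator (hS F (hFS F hF').1), lintegral_const_mul _ (hφm F),
            two_zpow_succ, ENNReal.mul_rpow_of_nonneg _ _ (by linarith), hsplit (2 ^ k F)]
          calc 2 ^ q * (((2 : ℝ≥0∞) ^ k F) ^ (q - 1) * 2 ^ k F) * w F =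
                2 ^ q * ((2 : ℝ≥0∞) ^ k F) ^ (q - 1) * (2 ^ k F * w F) := by ring
            _ ≤ _ := by gcongr; exact h1 F hF'
      _ = ∫⁻ x, ∑ F ∈ S.image π, F.indicator
            (fun x => 2 ^ q * ((2 : ℝ≥0∞) ^ k F) ^ (q - 1) * φ F x) x ∂w :=
          (lintegral_finsetSum _ fun F hF' =>
            ((hφm F).const_mul _).indicator (hS F (hFS F hF').1)).symm
      _ ≤ ∫⁻ x, cc q * f x ^ q ∂w := by
          refine lintegral_mono fun x => ?_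
          set T := (S.image π).filter (fun F => x ∈ F ∧ (2 : ℝ≥0∞) ^ k F < 2 * f x) with hT
          have e : ∑ F ∈ S.image π, F.indicator
              (fun x => 2 ^ q * ((2 : ℝ≥0∞) ^ k F) ^ (q - 1) * φ F x) x =
              (2 ^ q * (2 * f x)) * ∑ F ∈ T, ((2 : ℝ≥0∞) ^ k F) ^ (q - 1) := by
            rw [hT, Finset.mul_sum, Finset.sum_filter]
            refine Finset.sum_congr rfl fun F _ => ?_
            simp only [Set.indicator_apply, hφ]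
            by_cases h1 : x ∈ F <;> by_cases h2 : (2 : ℝ≥0∞) ^ k F < 2 * f x <;>
              simp only [h1, h2, if_true, if_false, and_true, and_false, mul_zero]
            ring
          have hinj : Set.InjOn k T := by
            intro F hF1 F' hF2 e
            have h1 := Finset.mem_filter.1 hF1
            have h2 := Finset.mem_filter.1 hF2
            have h3 := hF F h1.1
            rw [e] at h3
            exact mx_eq (lamf _) h3 (hF F' h2.1) h1.2.1 h2.2.1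
          rw [e, ← Finset.sum_image (f := fun m : ℤ => ((2 : ℝ≥0∞) ^ m) ^ (q - 1)) hinj]
          calc 2 ^ q * (2 * f x) * ∑ m ∈ T.image k, ((2 : ℝ≥0∞) ^ m) ^ (q - 1) ≤
                2 ^ q * (2 * f x) * (gc (q - 1) * (2 * f x) ^ (q - 1)) := by
                gcongr
                refine sum_zpow_rpow_le (by linarith) _ _ fun m hm => ?_
                obtain ⟨F, hF1, rfl⟩ := Finset.mem_image.1 hm
                exact (Finset.mem_filter.1 hF1).2.2.le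
            _ = 2 ^ q * gc (q - 1) * ((2 * f x) ^ (q - 1) * (2 * f x)) := by ring
            _ = _ := by
                rw [← hsplit, ENNReal.mul_rpow_of_nonneg _ _ (by linarith), cc]; ring
      _ = _ := lintegral_const_mul _ (hf.pow_const q)

/-- One half of the parallel corona argument. -/
lemma half_corona_p {p q : ℝ} (hq : 0 ≤ q) (w σ : Measure X) {S : Finset (Set X)} (hS : ∀ P ∈ S, MeasurableSet P)
    (c : Set X → ℝ≥0∞) {T : ℝ≥0∞}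
    (hT : ∀ R ∈ S, ∫⁻ x, sp (S.filter (· ⊆ R)) (fun Q => c Q * w Q) x ^ q ∂σ ≤ T * w R)
    {π π' : Set X → Set X} (β γ : Set X → ℝ≥0∞) (hπ : ∀ Q ∈ S, π Q ∈ S ∧ Q ⊆ π Q)
    (hπ' : ∀ Q ∈ S, π' Q ∈ S ∧ Q ⊆ π' Q)
    (hint : ∀ Q ∈ S, ∀ G ∈ S, Q ⊆ G → G ⊆ π Q → π G = π Q) {κ κ' : ℝ≥0∞}
    (hκ : ∀ u v : ℝ≥0∞, u * v ≤ κ * u ^ q + κ' * v ^ p) :
    ∑ Q ∈ S.filter (fun Q => π' Q ⊆ π Q), c Q * (β (π Q) * w Q) * (γ (π' Q) * σ Q) ≤
      κ * T * ∑ F ∈ S.image π, β F ^ q * w F + κ' * ∑ G ∈ S.image π', γ G ^ p * σ G := by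
  set S' := S.filter (fun Q => π' Q ⊆ π Q) with hS'
  have hmaps : ∀ Q ∈ S', π Q ∈ S.image π := fun Q hQ =>
    Finset.mem_image_of_mem _ (Finset.mem_filter.1 hQ).1
  have himS : ∀ F ∈ S.image π, F ∈ S := by
    intro F hF
    obtain ⟨Q, hQ, rfl⟩ := Finset.mem_image.1 hF
    exact (hπ Q hQ).1
  have himS' : ∀ F ∈ S.image π', F ∈ S := by
    intro F hF
    obtain ⟨Q, hQ, rfl⟩ := Finset.mem_image.1 hF
    exact (hπ' Q hQ).1
  rw [← Finset.sum_fiberwise_of_maps_to hmaps]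
  have key : ∀ F ∈ S.image π, ∑ Q ∈ S'.filter (fun Q => π Q = F),
      c Q * (β (π Q) * w Q) * (γ (π' Q) * σ Q) ≤
      κ * T * (β F ^ q * w F) + κ' * ∑ G ∈ (S.image π').filter (fun G => π G = F), γ G ^ p * σ G := by
    intro F hF
    have hm1 : ∀ P ∈ S'.filter (fun Q => π Q = F), MeasurableSet P := fun P hP =>
      hS P (Finset.mem_filter.1 (Finset.mem_filter.1 hP).1).1
    have hm2 : ∀ P ∈ S.filter (· ⊆ F), MeasurableSet P := fun P hP =>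
      hS P (Finset.mem_filter.1 hP).1
    have hm3 : ∀ P ∈ (S.image π').filter (fun G => π G = F), MeasurableSet P := fun P hP =>
      hS P (himS' P (Finset.mem_filter.1 hP).1)
    calc ∑ Q ∈ S'.filter (fun Q => π Q = F), c Q * (β (π Q) * w Q) * (γ (π' Q) * σ Q)
        = ∫⁻ x, sp (S'.filter (fun Q => π Q = F)) (fun Q => β F * (c Q * w Q) * γ (π' Q)) x ∂σ := by
          rw [lintegral_sp σ hm1]
          refine Finset.sum_congr rfl fun Q hQ => ?_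
          rw [(Finset.mem_filter.1 hQ).2]; ring
      _ ≤ ∫⁻ x, (κ * β F ^ q * sp (S.filter (· ⊆ F)) (fun Q => c Q * w Q) x ^ q +
          κ' * sp ((S.image π').filter (fun G => π G = F)) (fun G => γ G ^ p) x) ∂σ := by
          refine lintegral_mono fun x => ?_
          rcases ((S'.filter (fun Q => π Q = F)).filter (x ∈ ·)).eq_empty_or_nonempty with h | h
          · rw [sp, h]; simp
          · obtain ⟨Q₀, hQ₀, hmax⟩ := Finset.exists_max_image _ (fun Q => γ (π' Q)) h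
            have hQ1 := Finset.mem_filter.1 hQ₀
            have hQ2 := Finset.mem_filter.1 hQ1.1
            have hQ3 := Finset.mem_filter.1 hQ2.1
            have h1 : sp (S'.filter (fun Q => π Q = F)) (fun Q => β F * (c Q * w Q) * γ (π' Q)) x ≤
                β F * sp (S.filter (· ⊆ F)) (fun Q => c Q * w Q) x * γ (π' Q₀) := by
              rw [sp, sp, Finset.mul_sum, Finset.sum_mul]
              refine le_trans (Finset.sum_le_sum fun Q hQ => mul_le_mul_right (hmax Q hQ) _)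
                (Finset.sum_le_sum_of_subset fun Q hQ => ?_)
              have hQ1 := Finset.mem_filter.1 hQ
              have hQ2 := Finset.mem_filter.1 hQ1.1
              have hQ3 := Finset.mem_filter.1 hQ2.1
              exact Finset.mem_filter.2 ⟨Finset.mem_filter.2 ⟨hQ3.1, hQ2.2 ▸ (hπ Q hQ3.1).2⟩, hQ1.2⟩
            have h2 : γ (π' Q₀) ^ p ≤
                sp ((S.image π').filter (fun G => π G = F)) (fun G => γ G ^ p) x := by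
              refine Finset.single_le_sum (f := fun G => γ G ^ p) (fun _ _ => zero_le) ?_
              refine Finset.mem_filter.2 ⟨Finset.mem_filter.2
                ⟨Finset.mem_image_of_mem _ hQ3.1, ?_⟩, (hπ' Q₀ hQ3.1).2 hQ1.2⟩
              rw [hint Q₀ hQ3.1 _ (hπ' Q₀ hQ3.1).1 (hπ' Q₀ hQ3.1).2 hQ3.2, hQ2.2]
            refine (h1.trans (hκ _ _)).trans ?_
            rw [ENNReal.mul_rpow_of_nonneg _ _ hq, ← mul_assoc]
            gcongr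
      _ = κ * β F ^ q * ∫⁻ x, sp (S.filter (· ⊆ F)) (fun Q => c Q * w Q) x ^ q ∂σ +
          κ' * ∑ G ∈ (S.image π').filter (fun G => π G = F), γ G ^ p * σ G := by
          rw [lintegral_add_left (((sp_meas hm2 _).pow_const q).const_mul _),
            lintegral_const_mul _ ((sp_meas hm2 _).pow_const q),
            lintegral_const_mul _ (sp_meas hm3 _), lintegral_sp σ hm3]
      _ ≤ κ * β F ^ q * (T * w F) +
          κ' * ∑ G ∈ (S.image π').filter (fun G => π G = F), γ G ^ p * σ G := by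
          gcongr; exact hT F (himS F hF)
      _ = _ := by ring
  refine (Finset.sum_le_sum key).trans (le_of_eq ?_)
  rw [Finset.sum_add_distrib, ← Finset.mul_sum, ← Finset.mul_sum,
    Finset.sum_fiberwise_of_maps_to (fun G hG => Finset.mem_image_of_mem _ (himS' G hG))]

/-- The bilinear estimate. -/
lemma bilinear_p {p q : ℝ} (hp : 1 < p) (hq : 1 < q) (w σ : Measure X) {S : Finset (Set X)} (h : Lam (S : Set (Set X)))
    (hS : ∀ P ∈ S, MeasurableSet P) (hw : ∀ P ∈ S, w P ≠ ⊤) (hσ : ∀ P ∈ S, σ P ≠ ⊤)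
    (c : Set X → ℝ≥0∞) {T T' : ℝ≥0∞}
    (hT1 : ∀ R ∈ S, ∫⁻ x, sp (S.filter (· ⊆ R)) (fun Q => c Q * w Q) x ^ q ∂σ ≤ T * w R)
    (hT2 : ∀ R ∈ S, ∫⁻ x, sp (S.filter (· ⊆ R)) (fun Q => c Q * σ Q) x ^ p ∂w ≤ T' * σ R)
    {f g : X → ℝ≥0∞} (hf : Measurable f) (hg : Measurable g) (hf2 : ∫⁻ x, f x ^ q ∂w ≠ ⊤)
    (hg2 : ∫⁻ x, g x ^ p ∂σ ≠ ⊤) {κ₁ κ₂ κ₃ κ₄ : ℝ≥0∞} 
    (h12 : ∀ u v : ℝ≥0∞, u * v ≤ κ₁ * u ^ q + κ₂ * v ^ p)
    (h34 : ∀ u v : ℝ≥0∞, u * v ≤ κ₃ * u ^ p + κ₄ * v ^ q) :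
    ∑ Q ∈ S, c Q * (∫⁻ x in Q, f x ∂w) * (∫⁻ x in Q, g x ∂σ) ≤
      cc q * (κ₁ * T + κ₄) * ∫⁻ x, f x ^ q ∂w + cc p * (κ₂ + κ₃ * T') * ∫⁻ x, g x ^ p ∂σ := by
  set S' := S.filter (fun Q => ∫⁻ x in Q, f x ∂w ≠ 0 ∧ ∫⁻ x in Q, g x ∂σ ≠ 0) with hS'
  have hsub : S' ⊆ S := Finset.filter_subset _ _
  have h' : Lam (S' : Set (Set X)) := h.mono (Finset.coe_subset.2 hsub)
  have e : ∑ Q ∈ S, c Q * (∫⁻ x in Q, f x ∂w) * (∫⁻ x in Q, g x ∂σ) =
      ∑ Q ∈ S', c Q * (∫⁻ x in Q, f x ∂w) * (∫⁻ x in Q, g x ∂σ) := by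
    refine (Finset.sum_subset hsub fun Q hQ hQ' => ?_).symm
    simp only [hS', Finset.mem_filter, hQ, true_and, not_and_or, not_not] at hQ'
    rcases hQ' with h | h <;> simp [h]
  have hT1' : ∀ R ∈ S', ∫⁻ x, sp (S'.filter (· ⊆ R)) (fun Q => c Q * w Q) x ^ q ∂σ ≤ T * w R :=
    fun R hR => le_trans (lintegral_mono fun x => ENNReal.rpow_le_rpow
      (sp_mono (Finset.filter_subset_filter _ hsub) _ _) (by linarith)) (hT1 R (hsub hR))
  have hT2' : ∀ R ∈ S', ∫⁻ x, sp (S'.filter (· ⊆ R)) (fun Q => c Q * σ Q) x ^ p ∂w ≤ T' * σ R :=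
    fun R hR => le_trans (lintegral_mono fun x => ENNReal.rpow_le_rpow
      (sp_mono (Finset.filter_subset_filter _ hsub) _ _) (by linarith)) (hT2 R (hsub hR))
  have hm : ∀ P ∈ S', MeasurableSet P := fun P hP => hS P (hsub hP)
  obtain ⟨π, β, hπ, hint, hβ⟩ := corona_p hq w h' hm (fun P hP => hw P (hsub hP)) hf hf2
    (fun P hP => (Finset.mem_filter.1 hP).2.1)
  obtain ⟨π', γ, hπ', hint', hγ⟩ := corona_p hp σ h' hm (fun P hP => hσ P (hsub hP)) hg hg2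
    (fun P hP => (Finset.mem_filter.1 hP).2.2)
  have a1 := half_corona_p (by linarith) w σ hm c hT1' β γ (fun Q hQ => ⟨(hπ Q hQ).1, (hπ Q hQ).2.1⟩)
    (fun Q hQ => ⟨(hπ' Q hQ).1, (hπ' Q hQ).2.1⟩) hint h12
  have a2 := half_corona_p (by linarith) σ w hm c hT2' γ β (fun Q hQ => ⟨(hπ' Q hQ).1, (hπ' Q hQ).2.1⟩)
    (fun Q hQ => ⟨(hπ Q hQ).1, (hπ Q hQ).2.1⟩) hint' h34
  rw [e]
  calc ∑ Q ∈ S', c Q * (∫⁻ x in Q, f x ∂w) * (∫⁻ x in Q, g x ∂σ)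
      ≤ ∑ Q ∈ S'.filter (fun Q => π' Q ⊆ π Q), c Q * (β (π Q) * w Q) * (γ (π' Q) * σ Q) +
        ∑ Q ∈ S'.filter (fun Q => π Q ⊆ π' Q), c Q * (γ (π' Q) * σ Q) * (β (π Q) * w Q) := by
        rw [Finset.sum_filter (s := S'), Finset.sum_filter (s := S'), ← Finset.sum_add_distrib]
        refine Finset.sum_le_sum fun Q hQ => ?_
        have hb : c Q * (∫⁻ x in Q, f x ∂w) * (∫⁻ x in Q, g x ∂σ) ≤
            c Q * (β (π Q) * w Q) * (γ (π' Q) * σ Q) := by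
          gcongr
          · exact (hπ Q hQ).2.2
          · exact (hπ' Q hQ).2.2
        obtain ⟨x, hx⟩ : Q.Nonempty := nonempty_of_measure_ne_zero (μ := w) fun h0 =>
          (Finset.mem_filter.1 hQ).2.1 (setLIntegral_measure_zero _ _ h0)
        rcases h'.nested (hπ' Q hQ).1 (hπ Q hQ).1 ((hπ' Q hQ).2.1 hx) ((hπ Q hQ).2.1 hx) with h | h
        · rw [if_pos h]; exact le_add_right hb
        · rw [if_pos h]; exact le_add_left (hb.trans (le_of_eq (by ring)))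
    _ ≤ (κ₁ * T * (cc q * ∫⁻ x, f x ^ q ∂w) + κ₂ * (cc p * ∫⁻ x, g x ^ p ∂σ)) +
        (κ₃ * T' * (cc p * ∫⁻ x, g x ^ p ∂σ) + κ₄ * (cc q * ∫⁻ x, f x ^ q ∂w)) :=
        add_le_add (a1.trans (by gcongr)) (a2.trans (by gcongr))
    _ = _ := by ring

lemma lint_sp_mul (σ : Measure X) {S : Finset (Set X)} (hS : ∀ P ∈ S, MeasurableSet P)
    (a : Set X → ℝ≥0∞) {g : X → ℝ≥0∞} (hg : Measurable g) :
    ∫⁻ x, sp S a x * g x ∂σ = ∑ Q ∈ S, a Q * ∫⁻ x in Q, g x ∂σ := by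
  have : ∀ x, sp S a x * g x = ∑ Q ∈ S, Q.indicator (fun x => a Q * g x) x := by
    intro x
    rw [sp, Finset.sum_filter, Finset.sum_mul]
    refine Finset.sum_congr rfl fun Q _ => ?_
    simp only [Set.indicator_apply]
    split_ifs <;> simp
  simp_rw [this]
  rw [lintegral_finsetSum _ fun Q hQ => (hg.const_mul _).indicator (hS Q hQ)]
  refine Finset.sum_congr rfl fun Q hQ => ?_
  rw [lintegral_indicator (hS Q hQ), lintegral_const_mul _ hg]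

/-- **The testing theorem**, general exponent. -/
theorem testing_p {p q : ℝ} (hpq : p.HolderConjugate q) : ∃ c : ℝ≥0∞, c ≠ ⊤ ∧
    ∀ (w σ : Measure X) (S : Finset (Set X)), Lam (S : Set (Set X)) →
      (∀ P ∈ S, MeasurableSet P) → (∀ P ∈ S, w P ≠ ⊤) → (∀ P ∈ S, σ P ≠ ⊤) →
      ∀ k : Set X → ℝ≥0∞, (∀ P ∈ S, k P ≠ ⊤) → ∀ T : ℝ≥0∞, T ≠ 0 → T ≠ ⊤ →
      (∀ R ∈ S, ∫⁻ x, sp (S.filter (· ⊆ R)) (fun Q => k Q * σ Q) x ^ p ∂w ≤ T ^ p * σ R) →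
      (∀ R ∈ S, ∫⁻ x, sp (S.filter (· ⊆ R)) (fun Q => k Q * w Q) x ^ q ∂σ ≤ T ^ q * w R) →
      ∀ f : X → ℝ≥0∞, Measurable f →
        ∫⁻ x, sp S (fun Q => k Q * ∫⁻ y in Q, f y ∂σ) x ^ p ∂w ≤
          c * T ^ p * ∫⁻ x, f x ^ p ∂σ := by
  have hp := hpq.lt
  have hq := hpq.symm.lt
  set l : ℝ≥0∞ := 4 * cc q + 1 with hl
  have hl0 : l ≠ 0 := by simp [hl]
  have hlt : l ≠ ⊤ := ENNReal.add_ne_top.2 ⟨ENNReal.mul_ne_top (by norm_num) (cc_ne_top hq), by simp⟩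
  have hlp : l ^ p ≠ ⊤ := ENNReal.rpow_ne_top_of_nonneg (by linarith) hlt
  refine ⟨4 * cc p * l ^ p + 1, ENNReal.add_ne_top.2 ⟨ENNReal.mul_ne_top
    (ENNReal.mul_ne_top (by norm_num) (cc_ne_top hp)) hlp, by simp⟩,
    fun w σ S h hS hw hσ k hk T hT0 hTt hT1 hT2 f hf => ?_⟩
  by_cases hf2 : ∫⁻ x, f x ^ p ∂σ = ⊤
  · rw [hf2, ENNReal.mul_top (mul_ne_zero (by simp) (ENNReal.rpow_pos (pos_iff_ne_zero.2 hT0) hTt).ne')]
    exact le_top
  set A := sp S (fun Q => k Q * ∫⁻ y in Q, f y ∂σ) with hA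
  have hAm : Measurable A := sp_meas hS _
  have hN : ∫⁻ x, A x ^ p ∂w ≠ ⊤ := sp_rpow_ne_top (by linarith) w hS
    (fun P hP => ENNReal.mul_ne_top (hk P hP) (setInt_ne_top_p hp.le σ hf2 (hσ P hP))) hw
  set g : X → ℝ≥0∞ := fun x => A x ^ (p - 1) with hg
  have hgm : Measurable g := hAm.pow_const _
  have hgq : ∀ x, g x ^ q = A x ^ p := fun x => by
    rw [hg, ← ENNReal.rpow_mul, hpq.sub_one_mul_conj]
  have e : ∫⁻ x, A x ^ p ∂w = ∑ Q ∈ S, k Q * (∫⁻ x in Q, f x ∂σ) * (∫⁻ x in Q, g x ∂w) := by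
    rw [← lint_sp_mul w hS _ hgm]
    refine lintegral_congr fun x => ?_
    conv_lhs => rw [show p = 1 + (p - 1) by ring,
      ENNReal.rpow_add_of_nonneg _ _ zero_le_one (by linarith), ENNReal.rpow_one]
  have hlT0 : l * T ≠ 0 := mul_ne_zero hl0 hT0
  have hlTt : l * T ≠ ⊤ := ENNReal.mul_ne_top hlt hTt
  have := bilinear_p hq hp σ w h hS hσ hw k hT1 hT2 hf hgm hf2 (by simp_rw [hgq]; exact hN)
    (κ₁ := l ^ p) (κ₂ := l⁻¹ ^ q) (κ₃ := (l * T)⁻¹ ^ q) (κ₄ := (l * T) ^ p)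
    (young hpq hl0 hlt) (fun u v => by
      rw [mul_comm u v, add_comm]; exact young hpq hlT0 hlTt v u)
  simp_rw [hgq] at this
  rw [← e] at this
  refine absorb hN ?_
  have e1 : (l * T)⁻¹ ^ q * T ^ q = l⁻¹ ^ q := by
    rw [← ENNReal.mul_rpow_of_nonneg _ _ (by linarith), ENNReal.mul_inv (Or.inl hl0) (Or.inl hlt),
      mul_assoc, ENNReal.inv_mul_cancel hT0 hTt, mul_one]
  have e2 : 2 * (cc q * (l⁻¹ ^ q + l⁻¹ ^ q)) ≤ 1 := by
    have h1 : l⁻¹ ^ q ≤ l⁻¹ :=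
      ENNReal.rpow_le_self_of_le_one (ENNReal.inv_le_one.2 le_add_self) hq.le
    calc 2 * (cc q * (l⁻¹ ^ q + l⁻¹ ^ q)) = (4 * cc q) * l⁻¹ ^ q := by ring
      _ ≤ l * l⁻¹ := by gcongr; exact le_self_add
      _ = 1 := ENNReal.mul_inv_cancel hl0 hlt
  rw [e1, ENNReal.mul_rpow_of_nonneg _ _ hpq.pos.le] at this
  calc 2 * ∫⁻ x, A x ^ p ∂w ≤ 2 * (cc p * (l ^ p * T ^ p + l ^ p * T ^ p) * ∫⁻ x, f x ^ p ∂σ +
        cc q * (l⁻¹ ^ q + l⁻¹ ^ q) * ∫⁻ x, A x ^ p ∂w) := by gcongr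
    _ = 4 * cc p * l ^ p * T ^ p * ∫⁻ x, f x ^ p ∂σ +
        2 * (cc q * (l⁻¹ ^ q + l⁻¹ ^ q)) * ∫⁻ x, A x ^ p ∂w := by ring
    _ ≤ (4 * cc p * l ^ p + 1) * T ^ p * ∫⁻ x, f x ^ p ∂σ + 1 * ∫⁻ x, A x ^ p ∂w := by
        gcongr; exact le_self_add
    _ = _ := by rw [one_mul]

end Pool.Agent.H547Z.Pos
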